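import Pool.Agent.Y234.GS.StmA

/-!
# Project GS: homogeneous Nullstellensatz for a family of subspaces, and twisted complexes
-/

set_option autoImplicit false

namespace Pool.Agent.Y328.GS

open MvPolynomial Pool.Agent.Y234.GS

section nul

variable {K L ι : Type} [Field K] [Field L] [Algebra K L]

/-- The polynomials all of whose homogeneous components are mapped into `P`. -/
def InP (x : ι → L) (P : ℕ → Submodule K L) (G : MvPolynomial ι K) : Prop :=
  ∀ d : ℕ, aeval x (homogeneousComponent d G) ∈ P d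

theorem inP_add {x : ι → L} {P : ℕ → Submodule K L} {G H : MvPolynomial ι K}
    (hG : InP x P G) (hH : InP x P H) : InP x P (G + H) := by
  intro d
  rw [map_add, map_add]
  exact (P d).add_mem (hG d) (hH d)

theorem inP_zero {x : ι → L} {P : ℕ → Submodule K L} : InP x P (0 : MvPolynomial ι K) := by
  intro d
  rw [map_zero, map_zero]
  exact (P d).zero_mem

theorem inP_C_mul {x : ι → L} {P : ℕ → Submodule K L} {G : MvPolynomial ι K} (c : K)
    (hG : InP x P G) : InP x P (C c * G) := by
  intro d
  rw [homogeneousComponent_C_mul, map_mul, aeval_C, ← Algebra.smul_def]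
  exact (P d).smul_mem _ (hG d)

theorem inP_X_mul {x : ι → L} {P : ℕ → Submodule K L} {G : MvPolynomial ι K} (i : ι)
    (hP : ∀ n, ∀ a ∈ P n, ∀ i, x i * a ∈ P (n + 1))
    (hG : InP x P G) : InP x P (X i * G) := by
  intro e
  have h1 : X i * G = ∑ d ∈ Finset.range (G.totalDegree + 1), X i * homogeneousComponent d G := by
    rw [← Finset.mul_sum, sum_homogeneousComponent]
  rw [h1, map_sum, map_sum]
  refine (P e).sum_mem fun d _ => ?_
  have h2 : (X i * homogeneousComponent d G : MvPolynomial ι K) ∈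
      homogeneousSubmodule ι K (1 + d) :=
    (isHomogeneous_X K i).mul (homogeneousComponent_isHomogeneous d G)
  rw [homogeneousComponent_of_mem h2]
  split_ifs with he
  · rw [map_mul, aeval_X, he, add_comm 1 d]
    exact hP d _ (hG d) i
  · rw [map_zero]; exact (P e).zero_mem

theorem inP_mul {x : ι → L} {P : ℕ → Submodule K L}
    (hP : ∀ n, ∀ a ∈ P n, ∀ i, x i * a ∈ P (n + 1)) (F G : MvPolynomial ι K)
    (hG : InP x P G) : InP x P (F * G) := by
  induction F using MvPolynomial.induction_on with
  | C a => exact inP_C_mul a hG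
  | add p q hp hq => rw [add_mul]; exact inP_add hp hq
  | mul_X p i hp =>
    rw [mul_comm p (X i), mul_assoc]
    exact inP_X_mul i hP hp

/-- The ideal of these polynomials. -/
def idl (x : ι → L) (P : ℕ → Submodule K L)
    (hP : ∀ n, ∀ a ∈ P n, ∀ i, x i * a ∈ P (n + 1)) : Ideal (MvPolynomial ι K) where
  carrier := {G | InP x P G}
  add_mem' := fun ha hb => inP_add ha hb
  zero_mem' := inP_zero
  smul_mem' := fun c _ hG => inP_mul hP c _ hG

theorem inP_homog {x : ι → L} {P : ℕ → Submodule K L} {G : MvPolynomial ι K} {n : ℕ}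
    (hG : G.IsHomogeneous n) (h : aeval x G ∈ P n) : InP x P G := by
  intro d
  rw [homogeneousComponent_of_mem hG]
  split_ifs with he
  · rw [he]; exact h
  · rw [map_zero]; exact (P d).zero_mem

theorem vv_pow_le (x : ι → L) (N : ℕ) : ∀ a ∈ (VV K x) ^ N, ∃ G : MvPolynomial ι K,
    G.IsHomogeneous N ∧ aeval x G = a := by
  have hle : (VV K x) ^ N ≤ (homogeneousSubmodule ι K N).map (aeval x : MvPolynomial ι K →ₐ[K] L).toLinearMap := by
    induction N with
    | zero =>
      rw [pow_zero, Submodule.one_le]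
      exact ⟨1, isHomogeneous_one ι K, map_one (aeval x : MvPolynomial ι K →ₐ[K] L)⟩
    | succ N ih =>
      rw [pow_succ, Submodule.mul_le]
      intro a ha b hb
      obtain ⟨G, hG, rfl⟩ := ih ha
      refine Submodule.span_induction (p := fun b _ => (aeval x : MvPolynomial ι K →ₐ[K] L).toLinearMap G * b ∈ (homogeneousSubmodule ι K (N + 1)).map (aeval x : MvPolynomial ι K →ₐ[K] L).toLinearMap) ?_ ?_ ?_ ?_ hb
      · rintro _ ⟨i, rfl⟩
        exact ⟨G * X i, IsHomogeneous.mul hG (isHomogeneous_X K i), by simp⟩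
      · rw [mul_zero]; exact Submodule.zero_mem _
      · intro u v _ _ hu hv
        rw [mul_add]; exact Submodule.add_mem _ hu hv
      · intro c u _ hu
        rw [mul_smul_comm]; exact Submodule.smul_mem _ _ hu
  intro a ha
  obtain ⟨G, hG, h⟩ := hle ha
  exact ⟨G, hG, h⟩

theorem nul : S_NUL := by
  intro K L ι _ _ _ _ _ x P hP hy
  classical
  set J := idl x P hP with hJ
  have hloc : ∀ y ∈ zeroLocus K J, y = 0 := by
    intro y hyJ
    by_contra hne
    have hpt : IsPt K x y := by
      refine ⟨hne, fun d G hG h0 => ?_⟩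
      have : G ∈ J := inP_homog hG (by rw [h0]; exact (P d).zero_mem)
      have h1 := hyJ G this
      rwa [← coe_aeval_eq_eval]
    obtain ⟨n, g, ⟨G, hG, hGg, hGy⟩, hgP⟩ := hy y hpt
    have : G ∈ J := inP_homog hG (by rw [hGg]; exact hgP)
    have h1 := hyJ G this
    rw [← coe_aeval_eq_eval] at hGy
    exact hGy h1
  have hrad : ∀ i : ι, ∃ M : ℕ, (X i : MvPolynomial ι K) ^ M ∈ J := by
    intro i
    have h1 : (X i : MvPolynomial ι K) ∈ vanishingIdeal K (zeroLocus K J) := by
      intro y hyJ
      rw [hloc y hyJ]; simp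
    rw [vanishingIdeal_zeroLocus_eq_radical] at h1
    exact h1
  choose M hM using hrad
  set B := ∑ i, M i with hB
  have hMB : ∀ i, (X i : MvPolynomial ι K) ^ B ∈ J := by
    intro i
    have hle : M i ≤ B := Finset.single_le_sum (fun _ _ => Nat.zero_le _) (Finset.mem_univ i)
    rw [← Nat.sub_add_cancel hle, pow_add]
    exact J.mul_mem_left _ (hM i)
  refine ⟨Fintype.card ι * B + 1, fun N hN a ha => ?_⟩
  obtain ⟨G, hG, rfl⟩ := vv_pow_le x N a ha
  have hGJ : G ∈ J := by
    rw [G.as_sum]
    refine J.sum_mem fun b hb => ?_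
    have hdeg : ∑ i, b i = N := by
      have h1 := hG (mem_support_iff.mp hb)
      rw [Finsupp.weight_apply] at h1
      rw [← h1, Finsupp.sum_fintype _ _ (by simp)]
      simp
    obtain ⟨i, hi⟩ : ∃ i, B ≤ b i := by
      by_contra hcon
      push Not at hcon
      have h2 : ∑ i, b i ≤ ∑ _i : ι, B := Finset.sum_le_sum fun i _ => (hcon i).le
      rw [Finset.sum_const, Finset.card_univ, smul_eq_mul] at h2
      omega
    rw [monomial_eq, Finsupp.prod_fintype _ _ (by simp), ← Finset.mul_prod_erase _ _ (Finset.mem_univ i)]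
    rw [← Nat.sub_add_cancel hi, pow_add]
    have : (C (coeff b G) * (X i ^ (b i - B) * X i ^ B * ∏ k ∈ Finset.univ.erase i, X k ^ b k) : MvPolynomial ι K) = (C (coeff b G) * X i ^ (b i - B) * ∏ k ∈ Finset.univ.erase i, X k ^ b k) * X i ^ B := by ring
    rw [this]
    exact J.mul_mem_left _ (hMB i)
  have h3 := hGJ N
  rwa [homogeneousComponent_of_mem hG, if_pos rfl] at h3

end nul

section twl

variable {K ι : Type} [Field K] [LinearOrder ι]

/-- The sign gauge. -/
def sg (F G : Finset ι) : ℤ := (-1 : ℤ) ^ (∑ g ∈ G, (F.filter (fun f => f < g)).card)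

theorem sg_sq (F G : Finset ι) : sg F G * sg F G = 1 := by
  unfold sg
  rw [← pow_add, ← two_mul, pow_mul]; simp

theorem sg_erase (F G : Finset ι) (i : ι) (hi : i ∈ G) :
    (-1 : ℤ) ^ (F.filter (fun f => f < i)).card * sg F (G.erase i) = sg F G := by
  unfold sg
  rw [← pow_add, ← Finset.add_sum_erase _ _ hi]

theorem dd_gauge (F T : Finset ι) (hFT : F ⊆ T) (h h' : Finset ι → K)
    (h0 : ∀ i ∈ F, h' (T.erase i) = 0)
    (h1 : ∀ i ∈ T \ F, h' (T.erase i) = sg F ((T \ F).erase i) • h ((T \ F).erase i)) :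
    dd h' T = sg F (T \ F) • dd h (T \ F) := by
  unfold dd
  rw [← Finset.sum_sdiff hFT, Finset.sum_eq_zero (s := F), add_zero, Finset.smul_sum]
  · refine Finset.sum_congr rfl fun i hi => ?_
    rw [h1 i hi, ← sg_erase F (T \ F) i hi, smul_smul, smul_smul]
    congr 1
    have hc : (T.filter (fun u => u < i)).card =
        ((T \ F).filter (fun u => u < i)).card + (F.filter (fun u => u < i)).card := by
      rw [← Finset.card_union_of_disjoint]
      · congr 1
        rw [← Finset.filter_union, Finset.sdiff_union_of_subset hFT]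
      · refine Finset.disjoint_filter_filter ?_
        exact Finset.sdiff_disjoint
    rw [hc, pow_add]; ring
  · intro i hi
    rw [h0 i hi, smul_zero]

theorem twl : S_TWL := by
  intro K ι _ _ _ Δ F j hdown hF hTw
  classical
  intro γ hγ
  set γ' : Finset ι → K := fun S => if F ⊆ S ∧ S ∈ Δ then sg F (S \ F) • γ (S \ F) else 0 with hγ'
  obtain ⟨β', hβ1, hβ2⟩ := hTw γ' (by
    intro S hS
    by_contra hcon
    exact hS (if_neg hcon)) (by
    intro T hT hcard
    by_cases hFT : F ⊆ T
    · rw [dd_gauge F T hFT γ γ']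
      · rw [hγ (T \ F) (by
            rw [Finset.sdiff_inter_self]) (by
            rwa [Finset.sdiff_union_of_subset hFT]) (by
            rw [Finset.card_sdiff_of_subset hFT]; omega), smul_zero]
      · intro i hi
        refine if_neg fun hcon => ?_
        exact Finset.notMem_erase i T (hcon.1 hi)
      · intro i hi
        have hi' := Finset.mem_sdiff.mp hi
        have h2 : (T.erase i) \ F = (T \ F).erase i := Finset.erase_sdiff_comm T F i
        have h3 : F ⊆ T.erase i := fun u hu =>
          Finset.mem_erase.mpr ⟨fun e => hi'.2 (e ▸ hu), hFT hu⟩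
        show (if F ⊆ T.erase i ∧ T.erase i ∈ Δ then sg F ((T.erase i) \ F) • γ ((T.erase i) \ F) else 0) = _
        rw [if_pos ⟨h3, hdown T hT _ (Finset.erase_subset _ _)⟩, h2]
    · unfold dd
      refine Finset.sum_eq_zero fun i _ => ?_
      have : γ' (T.erase i) = 0 := if_neg fun hcon =>
        hFT (hcon.1.trans (Finset.erase_subset _ _))
      rw [this, smul_zero])
  refine ⟨fun G => sg F G • β' (G ∪ F), fun G hGF hGΔ hcard => ?_⟩
  have hdis : Disjoint G F := Finset.disjoint_iff_inter_eq_empty.mpr hGF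
  have hsd : (G ∪ F) \ F = G := by
    rw [Finset.union_sdiff_right]; exact Finset.sdiff_eq_self_of_disjoint hdis
  have h1 := hβ2 (G ∪ F) hGΔ Finset.subset_union_right (by
    rw [Finset.card_union_of_disjoint hdis, hcard])
  rw [dd_gauge F (G ∪ F) Finset.subset_union_right (fun G => sg F G • β' (G ∪ F)) β', hsd] at h1
  · have h2 : γ' (G ∪ F) = sg F G • γ G := by
      show (if F ⊆ G ∪ F ∧ G ∪ F ∈ Δ then sg F ((G ∪ F) \ F) • γ ((G ∪ F) \ F) else 0) = _
      rw [if_pos ⟨Finset.subset_union_right, hGΔ⟩, hsd]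
    rw [h2] at h1
    have h3 := congrArg (fun z => sg F G • z) h1
    simp only [smul_smul, sg_sq, one_smul] at h3
    exact h3
  · intro i hi
    by_contra hne
    exact Finset.notMem_erase i (G ∪ F) ((hβ1 _ hne).1 hi)
  · intro i hi
    rw [hsd] at hi ⊢
    have hiF : i ∉ F := Finset.disjoint_left.mp hdis hi
    have h4 : (G ∪ F).erase i = G.erase i ∪ F := by
      rw [Finset.erase_union_distrib, Finset.erase_eq_of_notMem hiF]
    rw [h4]
    simp only [smul_smul, sg_sq, one_smul]

end twl

end Pool.Agent.Y328.GS
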