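import Pool.Agent.Y234.GS.StmB
import Pool.Agent.Y328.GS.NulTwl

/-!
# Project GS: the linear map attached to a functional
-/

set_option autoImplicit false

namespace Pool.Agent.Y328.GS

open MvPolynomial Pool.Agent.Y234.GS

section phi

variable {k1 L1 ι : Type} [Field k1] [Field L1] [Algebra k1 L1]

theorem prod_pow_mem {κ : Type} (W : Submodule k1 L1) (ψ : κ → L1) (hψ : ∀ i, ψ i ∈ W)
    (S : Finset κ) (c : κ → ℕ) : ∏ i ∈ S, ψ i ^ c i ∈ W ^ (∑ i ∈ S, c i) := by
  classical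
  induction S using Finset.induction_on with
  | empty => rw [Finset.prod_empty, Finset.sum_empty, pow_zero]; exact Submodule.one_le.mp le_rfl
  | insert i S hi ih =>
    rw [Finset.prod_insert hi, Finset.sum_insert hi, pow_add]
    exact Submodule.mul_mem_mul (Submodule.pow_mem_pow W (hψ i) (c i)) ih

theorem sec_zero {W : Submodule k1 L1} {D : ℕ} {ψ : Fin D → L1} (hD : 2 ≤ D) (μ : ℤ)
    (k : Fin D) : (0 : L1) ∈ Sec W ψ μ (Finset.univ.erase k) := by
  have hcard : (Finset.univ.erase k).card = D - 1 := by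
    rw [Finset.card_erase_of_mem (Finset.mem_univ k), Finset.card_univ, Fintype.card_fin]
  refine ⟨μ.natAbs, (μ + μ.natAbs * ((D - 1 : ℕ) : ℤ)).toNat, ?_, ?_⟩
  · rw [hcard]
    have h1 : (1 : ℤ) ≤ ((D - 1 : ℕ) : ℤ) := by omega
    have h2 : (0 : ℤ) ≤ (μ.natAbs : ℤ) := by positivity
    have h3 : -(μ.natAbs : ℤ) ≤ μ := by omega
    have h4 : (μ.natAbs : ℤ) * 1 ≤ μ.natAbs * ((D - 1 : ℕ) : ℤ) :=
      mul_le_mul_of_nonneg_left h1 h2
    rw [Int.toNat_of_nonneg (by linarith)]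
  · rw [mul_zero]; exact Submodule.zero_mem _

theorem sec_term {W : Submodule k1 L1} {D : ℕ} {ψ : Fin D → L1} (μ : ℤ)
    (hψ : ∀ i, ψ i ∈ W) (hψ0 : ∀ i, ψ i ≠ 0) {h : ℕ} {f : L1} (hf : f ∈ W ^ h) (l : Fin D)
    (a : Fin D → ℕ) (hal : a l = 0) (hsum : ((∑ i, a i : ℕ) : ℤ) = h + 1 - D - μ) :
    ψ l * f * monz ψ (fun i => -(a i : ℤ) - 1) ∈ Sec W ψ μ (Finset.univ.erase l) := by
  classical
  have hD1 : 1 ≤ D := by
    have := l.2; omega
  have hcard : (Finset.univ.erase l).card = D - 1 := by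
    rw [Finset.card_erase_of_mem (Finset.mem_univ l), Finset.card_univ, Fintype.card_fin]
  set N := ∑ i, a i + 1 with hN
  have hle : ∀ i, a i + 1 ≤ N := fun i => by
    have := Finset.single_le_sum (f := a) (fun _ _ => Nat.zero_le _) (Finset.mem_univ i)
    omega
  refine ⟨N, h + ∑ i ∈ Finset.univ.erase l, (N - a i - 1), ?_, ?_⟩
  · rw [hcard]
    push_cast
    have h1 : ∀ i, ((N - a i - 1 : ℕ) : ℤ) = (N : ℤ) - a i - 1 := fun i => by
      have := hle i; omega
    simp only [h1]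
    rw [Finset.sum_sub_distrib, Finset.sum_sub_distrib, Finset.sum_const, Finset.sum_const, hcard]
    have h2 : ∑ i ∈ Finset.univ.erase l, (a i : ℤ) = ∑ i, (a i : ℤ) := by
      rw [← Finset.add_sum_erase _ _ (Finset.mem_univ l), hal]; simp
    rw [h2]
    push_cast at hsum
    rw [hsum]
    simp only [nsmul_eq_mul]
    have h3 : ((D - 1 : ℕ) : ℤ) = D - 1 := by omega
    rw [h3]; ring
  · have h1 : monz ψ (fun i => -(a i : ℤ) - 1) =
        (ψ l)⁻¹ * ∏ i ∈ Finset.univ.erase l, ψ i ^ (-(a i : ℤ) - 1) := by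
      unfold monz
      rw [← Finset.mul_prod_erase _ _ (Finset.mem_univ l)]
      beta_reduce
      rw [hal]
      simp
    have h2 : (∏ i ∈ Finset.univ.erase l, ψ i) ^ N *
        (ψ l * f * monz ψ (fun i => -(a i : ℤ) - 1)) =
        f * ∏ i ∈ Finset.univ.erase l, ψ i ^ (N - a i - 1) := by
      rw [h1, ← Finset.prod_pow]
      have h3 : (∏ i ∈ Finset.univ.erase l, ψ i ^ N) *
          ∏ i ∈ Finset.univ.erase l, ψ i ^ (-(a i : ℤ) - 1) =
          ∏ i ∈ Finset.univ.erase l, ψ i ^ (N - a i - 1) := by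
        rw [← Finset.prod_mul_distrib]
        refine Finset.prod_congr rfl fun i _ => ?_
        rw [← zpow_natCast, ← zpow_natCast, ← zpow_add₀ (hψ0 i)]
        congr 1
        have := hle i; omega
      rw [← h3]
      have h4 : ψ l * (ψ l)⁻¹ = 1 := mul_inv_cancel₀ (hψ0 l)
      calc (∏ i ∈ Finset.univ.erase l, ψ i ^ N) *
          (ψ l * f * ((ψ l)⁻¹ * ∏ i ∈ Finset.univ.erase l, ψ i ^ (-(a i : ℤ) - 1)))
          = (ψ l * (ψ l)⁻¹) * (f * ((∏ i ∈ Finset.univ.erase l, ψ i ^ N) *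
            ∏ i ∈ Finset.univ.erase l, ψ i ^ (-(a i : ℤ) - 1))) := by ring
        _ = _ := by rw [h4, one_mul]
    rw [h2, pow_add]
    exact Submodule.mul_mem_mul hf (prod_pow_mem W ψ hψ _ _)

theorem bd_of_sec {W : Submodule k1 L1} {D : ℕ} {ψ : Fin D → L1} (hD : 2 ≤ D) {μ : ℤ}
    {l : Fin D} {z : L1} (hz : z ∈ Sec W ψ μ (Finset.univ.erase l)) : Bd W ψ μ z := by
  classical
  refine ⟨fun k => if k = l then z else 0, fun k => ?_, by simp⟩
  by_cases hk : k = l
  · subst hk; simpa using hz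
  · simp only [hk, if_false]; exact sec_zero hD μ k

theorem phiSum_step {W : Submodule k1 L1} {D : ℕ} {ψ : Fin D → L1} (hD : 2 ≤ D) (μ : ℤ)
    (χ1 : L1 →ₗ[k1] k1) (hχ : ∀ v, Bd W ψ μ v → χ1 v = 0)
    (hψ : ∀ i, ψ i ∈ W) (hψ0 : ∀ i, ψ i ≠ 0) {h : ℕ} {f : L1} (hf : f ∈ W ^ h) (l : Fin D) :
    phiSum ψ χ1 μ (h + 1) (ψ l * f) = ψ l * phiSum ψ χ1 μ h f := by
  classical
  have hzero : ∀ a : Fin D → ℕ, a l = 0 → ((∑ i, a i : ℕ) : ℤ) = h + 1 - D - μ →
      χ1 (ψ l * f * monz ψ (fun i => -(a i : ℤ) - 1)) = 0 := fun a ha hs =>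
    hχ _ (bd_of_sec hD (sec_term μ hψ hψ0 hf l a ha hs))
  unfold phiSum
  by_cases h1 : 0 ≤ (h : ℤ) - D - μ
  · have h2 : 0 ≤ ((h + 1 : ℕ) : ℤ) - D - μ := by push_cast; omega
    rw [if_pos h1, if_pos h2]
    set s := ((h : ℤ) - D - μ).toNat with hs
    have hs1 : (((h + 1 : ℕ) : ℤ) - D - μ).toNat = s + 1 := by push_cast; omega
    rw [hs1, Finset.mul_sum]
    symm
    have hmon : ∀ a : Fin D → ℕ, mon ψ (a + Pi.single l 1) = ψ l * mon ψ a := by
      intro a
      unfold mon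
      rw [← Finset.mul_prod_erase _ _ (Finset.mem_univ l),
        ← Finset.mul_prod_erase (Finset.univ) (fun i => ψ i ^ a i) (Finset.mem_univ l)]
      simp only [Pi.add_apply, Pi.single_eq_same, pow_succ]
      have h3 : ∏ x ∈ Finset.univ.erase l, ψ x ^ (a x + (Pi.single l 1 : Fin D → ℕ) x) =
          ∏ x ∈ Finset.univ.erase l, ψ x ^ a x := by
        refine Finset.prod_congr rfl fun x hx => ?_
        rw [Pi.single_eq_of_ne (Finset.ne_of_mem_erase hx), add_zero]
      rw [h3]; ring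
    have hmonz : ∀ a : Fin D → ℕ,
        ψ l * monz ψ (fun i => -((a + Pi.single l 1 : Fin D → ℕ) i : ℤ) - 1) =
          monz ψ (fun i => -(a i : ℤ) - 1) := by
      intro a
      unfold monz
      rw [← Finset.mul_prod_erase _ _ (Finset.mem_univ l),
        ← Finset.mul_prod_erase (Finset.univ) (fun i => ψ i ^ (-(a i : ℤ) - 1)) (Finset.mem_univ l)]
      have h3 : ∏ x ∈ Finset.univ.erase l,
          ψ x ^ (-((a + Pi.single l 1 : Fin D → ℕ) x : ℤ) - 1) =
          ∏ x ∈ Finset.univ.erase l, ψ x ^ (-(a x : ℤ) - 1) := by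
        refine Finset.prod_congr rfl fun x hx => ?_
        rw [Pi.add_apply, Pi.single_eq_of_ne (Finset.ne_of_mem_erase hx), add_zero]
      rw [h3, ← mul_assoc]
      congr 1
      beta_reduce
      rw [Pi.add_apply, Pi.single_eq_same]
      have h4 : -((a l + 1 : ℕ) : ℤ) - 1 = (-(a l : ℤ) - 1) + (-1) := by push_cast; ring
      rw [h4, zpow_add₀ (hψ0 l), zpow_neg_one, mul_comm (ψ l ^ (-(a l : ℤ) - 1)), ← mul_assoc,
        mul_inv_cancel₀ (hψ0 l), one_mul]
    refine Finset.sum_of_injOn (fun a : Fin D → ℕ => a + Pi.single l 1) ?_ ?_ ?_ ?_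
    · intro a _ b _ hab
      exact add_right_cancel hab
    · intro a ha
      rw [Finset.mem_coe, Finset.mem_piAntidiag] at ha ⊢
      refine ⟨?_, fun _ _ => Finset.mem_univ _⟩
      have : ∑ i, (Pi.single l 1 : Fin D → ℕ) i = 1 := by
        rw [Finset.sum_pi_single']; simp
      simp only [Pi.add_apply, Finset.sum_add_distrib]
      rw [this]
      have := ha.1
      simpa using this
    · intro a ha hna
      rw [Finset.mem_piAntidiag] at ha
      have hal : a l = 0 := by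
        by_contra hne
        apply hna
        have hsum : ∑ i, (Pi.single l 1 : Fin D → ℕ) i = 1 := by
          rw [Finset.sum_pi_single']; simp
        have hdec : (a - Pi.single l 1) + Pi.single l 1 = a := by
          funext i
          by_cases hi : i = l
          · subst hi; simp only [Pi.add_apply, Pi.sub_apply, Pi.single_eq_same]; omega
          · simp only [Pi.add_apply, Pi.sub_apply, Pi.single_eq_of_ne hi]; omega
        refine ⟨a - Pi.single l 1, ?_, hdec⟩
        rw [Finset.mem_coe, Finset.mem_piAntidiag]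
        refine ⟨?_, fun _ _ => Finset.mem_univ _⟩
        have h5 : ∑ i, ((a - Pi.single l 1) + Pi.single l 1 : Fin D → ℕ) i = s + 1 := by
          rw [hdec]; exact ha.1
        simp only [Pi.add_apply, Finset.sum_add_distrib] at h5
        rw [hsum] at h5
        exact Nat.succ.inj h5
      rw [hzero a hal (by have := ha.1; push_cast at this ⊢; rw [← Nat.cast_sum, this]; omega),
        zero_smul]
    · intro a _
      rw [hmon, mul_smul_comm]
      congr 2
      rw [← hmonz a]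
      ring
  · rw [if_neg h1, mul_zero]
    by_cases h2 : 0 ≤ ((h + 1 : ℕ) : ℤ) - D - μ
    · rw [if_pos h2]
      have h3 : (((h + 1 : ℕ) : ℤ) - D - μ).toNat = 0 := by push_cast at h2 ⊢; omega
      rw [h3]
      refine Finset.sum_eq_zero fun a ha => ?_
      rw [Finset.mem_piAntidiag] at ha
      have hal : a l = 0 := by
        have := Finset.single_le_sum (f := a) (fun _ _ => Nat.zero_le _) (Finset.mem_univ l)
        have h4 : ∑ i, a i = 0 := ha.1
        omega
      rw [hzero a hal (by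
        have h4 := ha.1
        push_cast at h2 ⊢
        rw [← Nat.cast_sum, h4]; push_cast; omega), zero_smul]
    · rw [if_neg h2]

/-- `phiSum` as a linear map. -/
noncomputable def phiLin {D : ℕ} (ψ : Fin D → L1) (χ1 : L1 →ₗ[k1] k1) (μ : ℤ) (h : ℕ) :
    L1 →ₗ[k1] L1 where
  toFun := phiSum ψ χ1 μ h
  map_add' := by
    intro f g
    unfold phiSum
    split_ifs
    · simp only [add_mul, map_add, add_smul, Finset.sum_add_distrib]
    · simp
  map_smul' := by
    intro c f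
    unfold phiSum
    split_ifs
    · simp only [smul_mul_assoc, map_smul, RingHom.id_apply, Finset.smul_sum, smul_eq_mul,
        mul_smul]
    · simp

/-- The map on polynomials. -/
noncomputable def PhiM {D : ℕ} (X : ι → L1) (ψ : Fin D → L1) (χ1 : L1 →ₗ[k1] k1) (μ : ℤ) :
    MvPolynomial ι k1 →ₗ[k1] L1 :=
  (basisMonomials ι k1).constr k1
    (fun b => phiLin ψ χ1 μ (Finsupp.weight (1 : ι → ℕ) b) (aeval X (monomial b (1 : k1))))

theorem PhiM_monomial {D : ℕ} (X : ι → L1) (ψ : Fin D → L1) (χ1 : L1 →ₗ[k1] k1) (μ : ℤ)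
    (b : ι →₀ ℕ) (c : k1) : PhiM X ψ χ1 μ (monomial b c) =
      phiLin ψ χ1 μ (Finsupp.weight (1 : ι → ℕ) b) (aeval X (monomial b c)) := by
  have h1 : (monomial b c : MvPolynomial ι k1) = c • monomial b 1 := by
    rw [smul_monomial, smul_eq_mul, mul_one]
  have h2 : PhiM X ψ χ1 μ (monomial b 1) =
      phiLin ψ χ1 μ (Finsupp.weight (1 : ι → ℕ) b) (aeval X (monomial b (1 : k1))) := by
    have := (basisMonomials ι k1).constr_basis k1
      (fun b => phiLin ψ χ1 μ (Finsupp.weight (1 : ι → ℕ) b) (aeval X (monomial b (1 : k1)))) b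
    rw [coe_basisMonomials] at this
    exact this
  rw [h1, map_smul, h2, map_smul, map_smul]

theorem PhiM_homog {D : ℕ} (X : ι → L1) (ψ : Fin D → L1) (χ1 : L1 →ₗ[k1] k1) (μ : ℤ)
    {h : ℕ} {G : MvPolynomial ι k1} (hG : G.IsHomogeneous h) :
    PhiM X ψ χ1 μ G = phiLin ψ χ1 μ h (aeval X G) := by
  conv_lhs => rw [G.as_sum]
  conv_rhs => rw [G.as_sum]
  rw [map_sum, map_sum, map_sum]
  refine Finset.sum_congr rfl fun b hb => ?_
  rw [PhiM_monomial, hG (mem_support_iff.mp hb)]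

theorem PhiM_sum {D : ℕ} (X : ι → L1) (ψ : Fin D → L1) (χ1 : L1 →ₗ[k1] k1) (μ : ℤ)
    (G : MvPolynomial ι k1) : PhiM X ψ χ1 μ G =
      ∑ d ∈ Finset.range (G.totalDegree + 1), phiLin ψ χ1 μ d (aeval X (homogeneousComponent d G)) := by
  conv_lhs => rw [← sum_homogeneousComponent G]
  rw [map_sum]
  exact Finset.sum_congr rfl fun d _ => PhiM_homog X ψ χ1 μ (homogeneousComponent_isHomogeneous d G)

theorem PhiM_ker {D : ℕ} {X : ι → L1} (ψ : Fin D → L1) (χ1 : L1 →ₗ[k1] k1) (μ : ℤ)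
    (hX : ∀ G : MvPolynomial ι k1, aeval X G = 0 → ∀ d : ℕ, aeval X (homogeneousComponent d G) = 0)
    {G : MvPolynomial ι k1} (hG : aeval X G = 0) : PhiM X ψ χ1 μ G = 0 := by
  rw [PhiM_sum]
  refine Finset.sum_eq_zero fun d _ => ?_
  rw [hX G hG d, map_zero]

theorem PhiM_congr {D : ℕ} {X : ι → L1} (ψ : Fin D → L1) (χ1 : L1 →ₗ[k1] k1) (μ : ℤ)
    (hX : ∀ G : MvPolynomial ι k1, aeval X G = 0 → ∀ d : ℕ, aeval X (homogeneousComponent d G) = 0)
    {G H : MvPolynomial ι k1} (hG : aeval X G = aeval X H) :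
    PhiM X ψ χ1 μ G = PhiM X ψ χ1 μ H := by
  have := PhiM_ker ψ χ1 μ hX (G := G - H) (by rw [map_sub, hG, sub_self])
  rw [map_sub] at this
  exact sub_eq_zero.mp this

theorem aeval_homog_mem [Fintype ι] (X : ι → L1) {d : ℕ} {G : MvPolynomial ι k1}
    (hG : G.IsHomogeneous d) : aeval X G ∈ (VV k1 X) ^ d := by
  rw [G.as_sum, map_sum]
  refine Submodule.sum_mem _ fun b hb => ?_
  have hdeg : ∑ i, b i = d := by
    have h1 := hG (mem_support_iff.mp hb)
    rw [Finsupp.weight_apply] at h1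
    rw [← h1, Finsupp.sum_fintype _ _ (by simp)]
    simp
  rw [aeval_monomial, ← Algebra.smul_def, Finsupp.prod_fintype _ _ (by simp), ← hdeg]
  exact Submodule.smul_mem _ _ (prod_pow_mem _ X (fun i => Submodule.subset_span (Set.mem_range_self i)) _ _)

theorem PhiM_Y [Fintype ι] {D : ℕ} {X : ι → L1} {ψ : Fin D → L1} (hD : 2 ≤ D) (μ : ℤ)
    (χ1 : L1 →ₗ[k1] k1) (hχ : ∀ v, Bd (VV k1 X) ψ μ v → χ1 v = 0)
    (hψ : ∀ i, ψ i ∈ VV k1 X) (hψ0 : ∀ i, ψ i ≠ 0) (l : Fin D) {Y : MvPolynomial ι k1}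
    (hY : Y.IsHomogeneous 1) (hYψ : aeval X Y = ψ l) (G : MvPolynomial ι k1) :
    PhiM X ψ χ1 μ (Y * G) = ψ l * PhiM X ψ χ1 μ G := by
  conv_lhs => rw [← sum_homogeneousComponent G]
  rw [Finset.mul_sum, map_sum, PhiM_sum, Finset.mul_sum]
  refine Finset.sum_congr rfl fun d _ => ?_
  have hd := homogeneousComponent_isHomogeneous d G
  have h1 : (Y * homogeneousComponent d G).IsHomogeneous (d + 1) := by
    rw [add_comm]; exact hY.mul hd
  rw [PhiM_homog X ψ χ1 μ h1, map_mul, hYψ]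
  exact phiSum_step hD μ χ1 hχ hψ hψ0 (aeval_homog_mem X hd) l

theorem PhiM_F [Fintype ι] {D : ℕ} {X : ι → L1} {ψ : Fin D → L1} (hD : 2 ≤ D) (μ : ℤ)
    (χ1 : L1 →ₗ[k1] k1) (hχ : ∀ v, Bd (VV k1 X) ψ μ v → χ1 v = 0)
    (hψ : ∀ i, ψ i ∈ VV k1 X) (hψ0 : ∀ i, ψ i ≠ 0) {Y : Fin D → MvPolynomial ι k1}
    (hY : ∀ l, (Y l).IsHomogeneous 1) (hYψ : ∀ l, aeval X (Y l) = ψ l)
    (F : MvPolynomial (Fin D) k1) (G : MvPolynomial ι k1) :
    PhiM X ψ χ1 μ (aeval Y F * G) = aeval ψ F * PhiM X ψ χ1 μ G := by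
  induction F using MvPolynomial.induction_on generalizing G with
  | C c =>
    rw [aeval_C, aeval_C, ← Algebra.smul_def, ← Algebra.smul_def, map_smul]
  | add p q hp hq => rw [map_add, map_add, add_mul, add_mul, map_add, hp, hq]
  | mul_X p l hp =>
    have e1 : aeval Y (p * MvPolynomial.X l) = aeval Y p * Y l := by rw [map_mul, aeval_X]
    have e2 : aeval ψ (p * MvPolynomial.X l) = aeval ψ p * ψ l := by rw [map_mul, aeval_X]
    rw [e1, e2, mul_assoc, hp, PhiM_Y hD μ χ1 hχ hψ hψ0 l (hY l) (hYψ l), mul_assoc]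

theorem aeval_YF {D : ℕ} {X : ι → L1} {ψ : Fin D → L1} {Y : Fin D → MvPolynomial ι k1}
    (hYψ : ∀ l, aeval X (Y l) = ψ l) (F : MvPolynomial (Fin D) k1) :
    aeval X (aeval Y F) = aeval ψ F := by
  induction F using MvPolynomial.induction_on with
  | C c => simp
  | add p q hp hq => rw [map_add, map_add, map_add, hp, hq]
  | mul_X p l hp => rw [map_mul, map_mul, map_mul, aeval_X, aeval_X, hp, hYψ]

/-- The covering property makes the algebra of the `X i` integral over the algebra of the `ψ l`. -/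
theorem integral_cover [Fintype ι] {D : ℕ} {X : ι → L1} {ψ : Fin D → L1} (hD : 1 ≤ D)
    (hψ : ∀ i, ψ i ∈ VV k1 X) (hψ0 : ∀ i, ψ i ≠ 0) (hc : Cover (VV k1 X) ψ)
    (H : MvPolynomial ι k1) : IsIntegral (Algebra.adjoin k1 (Set.range ψ)) (aeval X H) := by
  obtain ⟨N, hN⟩ := hc
  set P1 := Algebra.adjoin k1 (Set.range ψ) with hP1
  set M : Submodule P1 L1 := Submodule.span P1 (((VV k1 X) ^ N : Submodule k1 L1) : Set L1) with hM
  have hfg : ((VV k1 X) ^ N).FG := (Submodule.fg_span (Set.finite_range X)).pow N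
  obtain ⟨s, hs⟩ := hfg
  have hMfg : M.FG := by
    refine ⟨s, le_antisymm (Submodule.span_mono ?_) (Submodule.span_le.mpr ?_)⟩
    · rw [← hs]; exact Submodule.subset_span
    · rw [← hs]; exact Submodule.span_subset_span k1 P1 (s : Set L1)
  have hMne : M ≠ ⊥ := by
    intro hbot
    have h1 : ψ ⟨0, hD⟩ ^ N ∈ M := Submodule.subset_span (Submodule.pow_mem_pow _ (hψ _) N)
    rw [hbot, Submodule.mem_bot] at h1
    exact pow_ne_zero N (hψ0 _) h1
  have hXi : ∀ i, IsIntegral P1 (X i) := by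
    intro i
    refine isIntegral_of_smul_mem_submodule M hMne hMfg (X i) fun n hn => ?_
    refine Submodule.span_induction (p := fun n _ => X i • n ∈ M) ?_ ?_ ?_ ?_ hn
    · intro v hv
      have h1 : X i * v ∈ (VV k1 X) ^ (N + 1) := by
        rw [pow_succ']
        exact Submodule.mul_mem_mul (Submodule.subset_span ⟨i, rfl⟩) hv
      obtain ⟨r, hr, hsum⟩ := hN _ h1
      rw [smul_eq_mul, hsum]
      refine Submodule.sum_mem _ fun l _ => ?_
      have h2 : ψ l * r l = (⟨ψ l, Algebra.subset_adjoin ⟨l, rfl⟩⟩ : P1) • r l := rfl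
      rw [h2]
      exact Submodule.smul_mem _ _ (Submodule.subset_span (hr l))
    · rw [smul_zero]; exact Submodule.zero_mem _
    · intro u v _ _ hu hv
      rw [smul_add]; exact Submodule.add_mem _ hu hv
    · intro c u _ hu
      have : X i • c • u = c • (X i • u) := smul_comm _ _ _
      rw [this]; exact Submodule.smul_mem _ _ hu
  induction H using MvPolynomial.induction_on with
  | C c =>
    rw [aeval_C]
    exact isIntegral_algebraMap (x := algebraMap k1 P1 c)
  | add p q hp hq => rw [map_add]; exact hp.add hq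
  | mul_X p i hp => rw [map_mul, aeval_X]; exact hp.mul (hXi i)

theorem exists_rep [Fintype ι] {D : ℕ} {X : ι → L1} {ψ : Fin D → L1} (hD : 1 ≤ D)
    (hX : Model k1 X) (hψ : ∀ i, ψ i ∈ VV k1 X) (hψ0 : ∀ i, ψ i ≠ 0) (hc : Cover (VV k1 X) ψ)
    (z : L1) : ∃ (G : MvPolynomial ι k1) (F : MvPolynomial (Fin D) k1),
      aeval ψ F ≠ 0 ∧ z * aeval ψ F = aeval X G := by
  obtain ⟨G, H, hH, hz⟩ := hX.gen z
  have hint := integral_cover hD hψ hψ0 hc H
  have halg : IsAlgebraic (Algebra.adjoin k1 (Set.range ψ)) (aeval X H) := hint.isAlgebraic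
  obtain ⟨q, hq0, hq⟩ := halg.exists_nonzero_coeff_and_aeval_eq_zero
    (mem_nonZeroDivisors_of_ne_zero hH)
  -- the algebra of the `X i`
  have hsub : Algebra.adjoin k1 (Set.range ψ) ≤ (aeval X : MvPolynomial ι k1 →ₐ[k1] L1).range := by
    refine Algebra.adjoin_le ?_
    rintro _ ⟨l, rfl⟩
    obtain ⟨Y, -, hY⟩ := vv_pow_le X 1 (ψ l) (by rw [pow_one]; exact hψ l)
    exact ⟨Y, hY⟩
  have hmem : Polynomial.aeval (aeval X H) q.divX ∈
      (aeval X : MvPolynomial ι k1 →ₐ[k1] L1).range := by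
    rw [Polynomial.aeval_eq_sum_range]
    refine Subalgebra.sum_mem _ fun i _ => ?_
    have h1 : q.divX.coeff i • (aeval X H) ^ i = (q.divX.coeff i : L1) * (aeval X H) ^ i := rfl
    rw [h1]
    have h2 : aeval X H ∈ (aeval X : MvPolynomial ι k1 →ₐ[k1] L1).range := ⟨H, rfl⟩
    exact Subalgebra.mul_mem _ (hsub (q.divX.coeff i).2) (Subalgebra.pow_mem _ h2 i)
  obtain ⟨H', hH'⟩ := hmem
  have hcoef : ((q.coeff 0 : Algebra.adjoin k1 (Set.range ψ)) : L1) ∈
      (aeval ψ : MvPolynomial (Fin D) k1 →ₐ[k1] L1).range := by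
    rw [← Algebra.adjoin_range_eq_range_aeval]; exact (q.coeff 0).2
  obtain ⟨F, hF⟩ := hcoef
  have hrel : aeval X H' * aeval X H + aeval ψ F = 0 := by
    have h2 := congrArg (Polynomial.aeval (aeval X H)) q.divX_mul_X_add
    rw [hq, map_add, map_mul, Polynomial.aeval_X, Polynomial.aeval_C] at h2
    have h3 : (algebraMap (Algebra.adjoin k1 (Set.range ψ)) L1) (q.coeff 0) =
        ((q.coeff 0 : Algebra.adjoin k1 (Set.range ψ)) : L1) := rfl
    have h4 : aeval X H' = Polynomial.aeval (aeval X H) q.divX := hH'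
    have h5 : aeval ψ F = ((q.coeff 0 : Algebra.adjoin k1 (Set.range ψ)) : L1) := hF
    rw [h4, h5, ← h3]; exact h2
  refine ⟨-(G * H'), F, ?_, ?_⟩
  · have h5 : aeval ψ F = ((q.coeff 0 : Algebra.adjoin k1 (Set.range ψ)) : L1) := hF
    rw [h5]
    intro h6
    exact hq0 (Subtype.ext h6)
  · have h7 : aeval ψ F = -(aeval X H' * aeval X H) := by
      rw [eq_neg_iff_add_eq_zero, add_comm]; exact hrel
    rw [h7, map_neg, map_mul, ← hz]; ring

theorem phi : S_PHI := by
  intro k1 L1 ι _ _ _ _ X D ψ μ χ1 hD hX hψ hind hc hχ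
  classical
  have hψ0 : ∀ i, ψ i ≠ 0 := fun i => hind.ne_zero i
  have hYex : ∀ l, ∃ Y : MvPolynomial ι k1, Y.IsHomogeneous 1 ∧ aeval X Y = ψ l := fun l =>
    vv_pow_le X 1 (ψ l) (by rw [pow_one]; exact hψ l)
  choose Y hY hYψ using hYex
  set Φ := PhiM X ψ χ1 μ with hΦ
  have hmul : ∀ (F : MvPolynomial (Fin D) k1) (G : MvPolynomial ι k1),
      Φ (aeval Y F * G) = aeval ψ F * Φ G := PhiM_F hD μ χ1 hχ hψ hψ0 hY hYψ
  have hrep := exists_rep (by omega) hX hψ hψ0 hc
  choose g d hd hgd using hrep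
  have key : ∀ (z : L1) (G : MvPolynomial ι k1) (F : MvPolynomial (Fin D) k1),
      z * aeval ψ F = aeval X G → Φ (g z) / aeval ψ (d z) * aeval ψ F = Φ G := by
    intro z G F hz
    have h1 : aeval X (aeval Y F * g z) = aeval X (aeval Y (d z) * G) := by
      rw [map_mul, map_mul, aeval_YF hYψ, aeval_YF hYψ, ← hgd z, ← hz]; ring
    have h2 := PhiM_congr ψ χ1 μ hX.hom h1
    have h3 : aeval ψ F * Φ (g z) = aeval ψ (d z) * Φ G := by
      rw [← hmul, ← hmul]; exact h2
    have h4 := hd z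
    field_simp
    linear_combination h3
  have uniq : ∀ (z y : L1) (G : MvPolynomial ι k1) (F : MvPolynomial (Fin D) k1),
      aeval ψ F ≠ 0 → z * aeval ψ F = aeval X G → y * aeval ψ F = Φ G →
      Φ (g z) / aeval ψ (d z) = y := by
    intro z y G F hF hz hy
    have h1 := key z G F hz
    exact mul_right_cancel₀ hF (h1.trans hy.symm)
  have hone : ∀ z : L1, Φ (g z) / aeval ψ (d z) * aeval ψ (d z) = Φ (g z) := fun z =>
    div_mul_cancel₀ _ (hd z)
  refine ⟨{ toFun := fun z => Φ (g z) / aeval ψ (d z), map_add' := ?_, map_smul' := ?_ },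
    ?_, ?_, ?_⟩
  · intro z z'
    refine uniq _ _ (aeval Y (d z') * g z + aeval Y (d z) * g z') (d z * d z') ?_ ?_ ?_
    · rw [map_mul]; exact mul_ne_zero (hd z) (hd z')
    · rw [map_add, map_mul, map_mul, map_mul, aeval_YF hYψ, aeval_YF hYψ, ← hgd z, ← hgd z']
      ring
    · rw [map_add, hmul, hmul, map_mul]
      have h1 := hd z
      have h2 := hd z'
      field_simp
  · intro c z
    refine uniq _ _ (c • g z) (d z) (hd z) ?_ ?_
    · rw [map_smul, ← hgd z, smul_mul_assoc]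
    · rw [map_smul, RingHom.id_apply, smul_mul_assoc, hone]
  · intro l z
    refine uniq _ _ (Y l * g z) (d z) (hd z) ?_ ?_
    · rw [map_mul, hYψ, ← hgd z, mul_assoc]
    · have h1 : Φ (Y l * g z) = ψ l * Φ (g z) :=
        PhiM_Y hD μ χ1 hχ hψ hψ0 l (hY l) (hYψ l) (g z)
      rw [h1, mul_assoc]
      congr 1
      exact hone z
  · intro h f hf
    obtain ⟨G, hG, hGf⟩ := vv_pow_le X h f hf
    refine uniq _ _ G 1 ?_ ?_ ?_
    · rw [map_one]; exact one_ne_zero
    · rw [map_one, mul_one, hGf]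
    · rw [map_one, mul_one, hΦ, PhiM_homog X ψ χ1 μ hG, hGf]; rfl
  · intro z
    have hmemψ : ∀ l, ψ l ∈ IntermediateField.adjoin k1 (Set.range ψ) := fun l =>
      IntermediateField.subset_adjoin k1 _ ⟨l, rfl⟩
    have hF : ∀ F : MvPolynomial (Fin D) k1,
        aeval ψ F ∈ IntermediateField.adjoin k1 (Set.range ψ) := by
      intro F
      induction F using MvPolynomial.induction_on with
      | C c => rw [aeval_C]; exact IntermediateField.algebraMap_mem _ c
      | add p q hp hq => rw [map_add]; exact add_mem hp hq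
      | mul_X p l hp => rw [map_mul, aeval_X]; exact mul_mem hp (hmemψ l)
    have hsum : ∀ (h : ℕ) (f : L1), phiSum ψ χ1 μ h f ∈
        IntermediateField.adjoin k1 (Set.range ψ) := by
      intro h f
      unfold phiSum
      split_ifs
      · refine sum_mem fun a _ => ?_
        rw [Algebra.smul_def]
        refine mul_mem (IntermediateField.algebraMap_mem _ _) ?_
        unfold mon
        exact prod_mem fun i _ => pow_mem (hmemψ i) _
      · exact zero_mem _
    have hG : ∀ G : MvPolynomial ι k1, Φ G ∈ IntermediateField.adjoin k1 (Set.range ψ) := by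
      intro G
      rw [hΦ, PhiM_sum]
      exact sum_mem fun d _ => hsum _ _
    exact div_mem (hG _) (hF _)

end phi

end Pool.Agent.Y328.GS
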